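import Pool.Agent.X127.AR.Main

/-!
Critical bond percolation on the square lattice: the crossing probability of a rectangle depends on
its aspect ratio in a log-bi-Lipschitz way, uniformly in the mesh, and so do all its subsequential
scaling limits.
-/

namespace Pool.Agent.Results.MP_6c8efb_pr.AspectRatio

open Filter Topology Pool.Agent.X127.AR

/-- `f` is the scaling limit of the crossing probabilities along the sizes `ν 0, ν 1, …`: for all
real `L, l > 0` the crossing probability of the rectangle `⌊L ν_k⌋ × ⌊l ν_k⌋` tends to `f L l`. -/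
def ScalingLimit (ν : ℕ → ℕ) (f : ℝ → ℝ → ℝ) : Prop :=
  Tendsto ν atTop atTop ∧ ∀ L l : ℝ, 0 < L → 0 < l →
    Tendsto (fun k => crossProb ⌊L * ν k⌋₊ ⌊l * ν k⌋₊) atTop (𝓝 (f L l))

theorem result :
    -- the order of the increments, and the log-bi-Lipschitz bounds for the scaling limits
    (∀ K : ℕ, 1 ≤ K → ∃ c C : ℝ, 0 < c ∧ 0 < C ∧
      (∀ w h : ℕ, 1 ≤ w → 1 ≤ h → h ≤ K * w →
        c * crossProb w h / h ≤ crossProb w h - crossProb (w + 1) h ∧
        crossProb w h - crossProb (w + 1) h ≤ C * crossProb w h / h) ∧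
      ∀ (ν : ℕ → ℕ) (f : ℝ → ℝ → ℝ), ScalingLimit ν f →
        ∀ L L' l : ℝ, 0 < L → L ≤ L' → 0 < l → l ≤ K * L →
          f L l * Real.exp (-(C * (L' - L) / l)) ≤ f L' l ∧
            f L' l ≤ f L l * Real.exp (-(c * (L' - L) / l))) ∧
    -- compactness
    (∀ ν : ℕ → ℕ, Tendsto ν atTop atTop → ∃ φ : ℕ → ℕ, StrictMono φ ∧ ∃ f : ℝ → ℝ → ℝ,
      ScalingLimit (fun k => ν (φ k)) f) ∧
    -- positivity, duality and a Harnack inequality for the scaling limits
    (∀ (ν : ℕ → ℕ) (f : ℝ → ℝ → ℝ), ScalingLimit ν f → ∀ L l : ℝ, 0 < L → 0 < l →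
      0 < f L l ∧ f L l < 1 ∧ f L l + f l L = 1 ∧
      ∀ L' t : ℝ, L ≤ L' → 0 ≤ t →
        (1 - f L l) * (f L' l - f (L' + t) l) ≤ f L l - f (L + t) l) := by
  refine ⟨fun K hK => ?_, fun ν hν => ?_, fun ν f hf L l hL hl => ?_⟩
  · obtain ⟨c, C, hc, hC, h1, h2⟩ := exp_bounds cross_crossProb K hK
    exact ⟨c, C, hc, hC, h1, fun ν f hf => h2 ν f hf.1 hf.2⟩
  · obtain ⟨φ, hφ, f, hf⟩ := exists_limit cross_crossProb hν
    exact ⟨φ, hφ, f, hν.comp hφ.tendsto_atTop, hf⟩
  · have h1 := limit_pos cross_crossProb hf.1 hf.2 hL hl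
    have h2 := limit_pos cross_crossProb hf.1 hf.2 hl hL
    have h3 := limit_dual cross_crossProb hf.1 hf.2 hL hl
    exact ⟨h1, by linarith, h3, fun L' t hLL ht =>
      limit_har cross_crossProb hf.1 hf.2 hL hLL hl ht⟩

end Pool.Agent.Results.MP_6c8efb_pr.AspectRatio
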