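import Pool.Agent.X136.DP.PModel
import Pool.Agent.X136.DP.Vis

set_option autoImplicit false

/-!
# The exploration path for parameters of the edges which approach `1 / 2` away from the origin

Bond percolation on `ℤ × ℕ` with the boundary values of the problem; the edge `e` is open with
probability `q e`, where `q` is an arbitrary function with values in `[0, 1]`.

Definitions: `Pool.Agent.X136.QE.Model`, `Pool.Agent.X136.DP.PModel`.
-/

namespace Pool.Agent.Results.MP_6c8efb_pr.DeterministicPerturbation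

open H974 H984P H984H MeasureTheory ProbabilityTheory Filter Topology
open Pool.Agent.X136.QE.Model (law lawQ)
open Pool.Agent.X136.DP.PModel

/-- **The exploration path for arbitrary parameters of the edges.** -/
theorem result :
    (∀ (q : Edg → unitInterval) (n : ℕ) (Φ : (ℕ → St) → ℝ), (∀ p, |Φ p| ≤ 1) →
      (∀ p p' : ℕ → St, (∀ k ≤ n, p k = p' k) → Φ p = Φ p') →
      |(∫ ω, Φ (path ω) ∂law q) - ∫ ω, Φ (path ω) ∂perc| ≤
        14 * Real.sqrt (∑' e, (2 * (q e : ℝ) - 1) ^ 2 * seenBy n e)) ∧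
    (∀ q : Edg → unitInterval, (Summable fun e => (2 * (q e : ℝ) - 1) ^ 2 * seen e) →
      (∀ (K : NNReal) (F : C(unitInterval, ℂ) → ℝ), LipschitzWith K F → (∀ f, |F f| ≤ 1) →
        Tendsto (fun n => (∫ f, F f ∂(lawQ q n : Measure C(unitInterval, ℂ))) -
          ∫ f, F f ∂(lawH n : Measure C(unitInterval, ℂ))) atTop (𝓝 0)) ∧
      (∀ φ : ℕ → ℕ, Tendsto φ atTop atTop → ∃ ψ : ℕ → ℕ, StrictMono ψ ∧
        ∃ μ : ProbabilityMeasure C(unitInterval, ℂ),
          Tendsto (fun i => lawQ q (φ (ψ i))) atTop (𝓝 μ) ∧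
          Tendsto (fun i => lawH (φ (ψ i))) atTop (𝓝 μ)) ∧
      (∀ φ : ℕ → ℕ, Tendsto φ atTop atTop → ∀ μ : ProbabilityMeasure C(unitInterval, ℂ),
        Tendsto (fun i => lawQ q (φ i)) atTop (𝓝 μ) ↔
          Tendsto (fun i => lawH (φ i)) atTop (𝓝 μ)) ∧
      ∀ (X : Type) [MetricSpace X] [MeasurableSpace X] [BorelSpace X]
        (Ψ : C(unitInterval, ℂ) → X) (hΨ : Continuous Ψ) (φ : ℕ → ℕ), Tendsto φ atTop atTop →
        ∀ μ : ProbabilityMeasure X,
          Tendsto (fun i => (lawQ q (φ i)).map hΨ.measurable.aemeasurable) atTop (𝓝 μ) ↔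
            Tendsto (fun i => (lawH (φ i)).map hΨ.measurable.aemeasurable) atTop (𝓝 μ)) ∧
    (∃ C : ℝ, 0 < C ∧ ∀ e : Edg, 0 ≤ e.2.1 →
      seen e ≤ C * ((e.2.1 : ℝ) + 1) ^ (-(1/4) : ℝ)) ∧
    (∀ q : Edg → unitInterval, (Summable fun e : Edg => if 0 ≤ e.2.1 then
        (2 * (q e : ℝ) - 1) ^ 2 * ((e.2.1 : ℝ) + 1) ^ (-(1/4) : ℝ) else 0) →
      Summable fun e => (2 * (q e : ℝ) - 1) ^ 2 * seen e) ∧
    ∀ (q : Edg → unitInterval) (K s : ℝ), 7/8 < s →
      (∀ᶠ e : Edg in cofinite, 0 ≤ e.2.1 →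
        |2 * (q e : ℝ) - 1| ≤ K * (|(e.1 : ℝ)| + |(e.2.1 : ℝ)| + 1) ^ (-s)) →
      Summable fun e => (2 * (q e : ℝ) - 1) ^ 2 * seen e := by
  refine ⟨?_, ?_, Pool.Agent.X136.DP.vis_le, fun q h => Pool.Agent.X136.DP.summable_of_weight h,
    fun q K s hs h => Pool.Agent.X136.DP.summable_of_weight
      (Pool.Agent.X136.DP.summable_of_decay hs h)⟩
  · intro q n Φ hΦ1 hΦ
    have h1 := Pool.Agent.X136.DP.path_tv q n hΦ1 hΦ
    have h2 : ∑' e, (2 * (q e : ℝ) - 1) ^ 2 * seenBy n e =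
        ∑ e ∈ Pool.Agent.X136.QE.BW n, (2 * (q e : ℝ) - 1) ^ 2 *
          perc.real {ω | e ∈ Pool.Agent.X136.QE.Ex n ω} := by
      refine (tsum_eq_sum (s := Pool.Agent.X136.QE.BW n) fun e he => ?_).trans rfl
      have h3 : seenBy n e = 0 := by
        have h4 : {ω : Conf | e ∈ Pool.Agent.X136.QE.Ex n ω} = ∅ := by
          ext ω
          simp only [Set.mem_ofPred_eq, Set.mem_empty_iff_false, iff_false]
          exact fun h => he (Pool.Agent.X136.QE.Ex_sub h)
        show perc.real {ω : Conf | e ∈ Pool.Agent.X136.QE.Ex n ω} = 0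
        rw [h4]
        simp
      rw [h3, mul_zero]
    rw [h2]
    exact h1
  · intro q hs
    have htight := Displacement.result.2.2.2.2.1
    have hq : ∀ φ : ℕ → ℕ, Tendsto φ atTop atTop → ∀ μ : ProbabilityMeasure C(unitInterval, ℂ),
          Tendsto (fun i => lawQ q (φ i)) atTop (𝓝 μ) ↔
            Tendsto (fun i => lawH (φ i)) atTop (𝓝 μ) :=
      fun φ hφ μ => Pool.Agent.X136.DP.lim_law hs hφ μ
    have h1 : ∀ φ : ℕ → ℕ, Tendsto φ atTop atTop → ∃ ψ : ℕ → ℕ, StrictMono ψ ∧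
          ∃ μ : ProbabilityMeasure C(unitInterval, ℂ),
            Tendsto (fun i => lawQ q (φ (ψ i))) atTop (𝓝 μ) ∧
            Tendsto (fun i => lawH (φ (ψ i))) atTop (𝓝 μ) := by
      intro φ hφ
      obtain ⟨ψ, hψ, μ, hμ⟩ := htight φ hφ
      exact ⟨ψ, hψ, μ, (hq (fun i => φ (ψ i)) (hφ.comp hψ.tendsto_atTop) μ).2 hμ, hμ⟩
    refine ⟨fun K F hF hF1 => Pool.Agent.X136.DP.lim_fun hs hF hF1, h1, hq, ?_⟩
    intro X _ _ _ Ψ hΨ φ hφ μ
    constructor
    · intro h
      refine tendsto_of_subseq_tendsto fun ns hns => ?_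
      obtain ⟨ψ, hψ, μ', ha, hb⟩ := h1 (fun i => φ (ns i)) (hφ.comp hns)
      refine ⟨ψ, ?_⟩
      have ha' := (ProbabilityMeasure.continuous_map hΨ).tendsto μ' |>.comp ha
      have hb' := (ProbabilityMeasure.continuous_map hΨ).tendsto μ' |>.comp hb
      have e := tendsto_nhds_unique ha' (h.comp (hns.comp hψ.tendsto_atTop))
      rw [← e]
      exact hb'
    · intro h
      refine tendsto_of_subseq_tendsto fun ns hns => ?_
      obtain ⟨ψ, hψ, μ', ha, hb⟩ := h1 (fun i => φ (ns i)) (hφ.comp hns)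
      refine ⟨ψ, ?_⟩
      have ha' := (ProbabilityMeasure.continuous_map hΨ).tendsto μ' |>.comp ha
      have hb' := (ProbabilityMeasure.continuous_map hΨ).tendsto μ' |>.comp hb
      have e := tendsto_nhds_unique hb' (h.comp (hns.comp hψ.tendsto_atTop))
      rw [← e]
      exact ha'

end Pool.Agent.Results.MP_6c8efb_pr.DeterministicPerturbation
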