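import Pool.Agent.X135.DL.RectT

/-!
# Lower tail and Laplace transform of the duration of the exploration path

Critical bond percolation on `δ ℤ²` in a rectangle `D = (-A, B) × (0, H)`, exploration path from
`a = t + i H` to `b = 0` between the wired boundary arc and the dual-wired one. Its duration in the
natural parametrisation is `R.time δ F = δ ^ (7/4) * (number of steps)`; `R.law δ` is the law of
the pair (curve with constant speed, duration) and `p.2` is the duration.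

Definitions: `Pool.Agent.H984R4.NP.Model` (`Rect`, `X`, `Rect.dm`, `Rect.time`, `Rect.law`,
`Rect.prob`), `Pool.Agent.H984R4.NP.Defs` (`Dm`, `Dm.edges`, `Dm.cfg`, `Dm.walk`, `Dm.len`) and
`Pool.Agent.H984R3.Per.Defs` (states, `nxt`, `orb`).
-/

set_option autoImplicit false

namespace Pool.Agent.Results.MP_6c8efb_pr.DurationLowerTail

open H984N MeasureTheory Filter Topology Pool.Agent.X135.DL

/-- The duration is at most `x` with probability `exp (- Θ (x ^ (-4/3)))`, uniformly in the mesh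
`δ`, for `C δ ^ (3/4) ≤ x ≤ 1`; it is always at least `c δ ^ (3/4)`.  Its Laplace transform at `s`
is `exp (- Θ (s ^ (4/7)))` for `1 ≤ s ≤ c δ ^ (-7/4)`.  The duration of every subsequential scaling
limit has the same lower tail and the same Laplace transform. -/
theorem result (R : Rect) : ∃ c C δ0 : ℝ, 0 < c ∧ 0 < C ∧ 0 < δ0 ∧
    (∀ δ : ℝ, 0 < δ → δ ≤ δ0 →
      (∀ F : Finset H974.Edg, F ⊆ (R.dm δ).edges → c * δ ^ (3/4 : ℝ) ≤ R.time δ F) ∧
      (∀ x : ℝ, 0 < x → R.prob δ (fun F => R.time δ F ≤ x) ≤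
        C * Real.exp (-(c * x ^ (-(4/3) : ℝ)))) ∧
      (∀ x : ℝ, C * δ ^ (3/4 : ℝ) ≤ x → x ≤ 1 →
        Real.exp (-(C * x ^ (-(4/3) : ℝ))) ≤ R.prob δ (fun F => R.time δ F ≤ x)) ∧
      ∀ s : ℝ, 1 ≤ s → s ≤ c * δ ^ (-(7/4) : ℝ) →
        Real.exp (-(C * s ^ (4/7 : ℝ))) ≤
          ∫ p, Real.exp (-(s * p.2)) ∂(R.law δ : Measure X) ∧
        ∫ p, Real.exp (-(s * p.2)) ∂(R.law δ : Measure X) ≤
          C * Real.exp (-(c * s ^ (4/7 : ℝ)))) ∧
    (∀ δ : ℕ → ℝ, (∀ i, 0 < δ i) → Tendsto δ atTop (𝓝 0) → ∀ μ : ProbabilityMeasure X,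
      Tendsto (fun i => R.law (δ i)) atTop (𝓝 μ) →
      (∀ x : ℝ, 0 < x → (μ : Measure X) {p | p.2 ≤ x} ≤
        ENNReal.ofReal (C * Real.exp (-(c * x ^ (-(4/3) : ℝ))))) ∧
      (∀ x : ℝ, 0 < x → x ≤ 1 → ENNReal.ofReal (Real.exp (-(C * x ^ (-(4/3) : ℝ)))) ≤
        (μ : Measure X) {p | p.2 ≤ x}) ∧
      ∀ s : ℝ, 1 ≤ s →
        Real.exp (-(C * s ^ (4/7 : ℝ))) ≤ ∫ p, Real.exp (-(s * p.2)) ∂(μ : Measure X) ∧
        ∫ p, Real.exp (-(s * p.2)) ∂(μ : Measure X) ≤
          C * Real.exp (-(c * s ^ (4/7 : ℝ)))) := by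
  obtain ⟨c, C, δ0, hc, hC, hδ0, h⟩ := rect_tail R
  obtain ⟨b, hb⟩ : ∃ b : ℝ, b = min (c / 4) (min 1 ((1 / C) ^ (7/3 : ℝ))) := ⟨_, rfl⟩
  have hb0 : 0 < b := by
    rw [hb]; exact lt_min (by positivity) (lt_min one_pos (by positivity))
  have hb4 : b ≤ c / 4 := by rw [hb]; exact min_le_left _ _
  have hbc : b ≤ c := by linarith
  have hb1 : b ≤ 1 := by rw [hb]; exact (min_le_right _ _).trans (min_le_left _ _)
  have hbC : b ≤ (1 / C) ^ (7/3 : ℝ) := by
    rw [hb]; exact (min_le_right _ _).trans (min_le_right _ _)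
  have hlapup : ∀ {s I : ℝ} {d : ℝ}, 1 ≤ s → b ≤ d → I ≤ (C + 1) * Real.exp (-(min d 1 * s ^ (4/7 : ℝ))) →
      I ≤ (C + 1) * Real.exp (-(b * s ^ (4/7 : ℝ))) := by
    intro s I d hs hd hI
    refine hI.trans ?_
    apply mul_le_mul_of_nonneg_left _ (by positivity)
    apply Real.exp_le_exp.mpr
    have h1 : b ≤ min d 1 := le_min hd hb1
    have h2 : 0 ≤ s ^ (4/7 : ℝ) := by positivity
    have := mul_le_mul_of_nonneg_right h1 h2
    linarith
  have htailup : ∀ {x I d : ℝ}, 0 < x → b ≤ d → I ≤ C * Real.exp (-(d * x ^ (-(4/3) : ℝ))) →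
      I ≤ (C + 1) * Real.exp (-(b * x ^ (-(4/3) : ℝ))) := by
    intro x I d hx hd hI
    refine hI.trans ?_
    apply mul_le_mul (by linarith) _ (Real.exp_nonneg _) (by positivity)
    apply Real.exp_le_exp.mpr
    have h2 : 0 ≤ x ^ (-(4/3) : ℝ) := by positivity
    have := mul_le_mul_of_nonneg_right hd h2
    linarith
  have htaillow : ∀ {x : ℝ}, 0 < x → Real.exp (-((C + 1) * x ^ (-(4/3) : ℝ))) ≤
      Real.exp (-(C * x ^ (-(4/3) : ℝ))) := by
    intro x hx
    apply Real.exp_le_exp.mpr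
    have h2 : 0 ≤ x ^ (-(4/3) : ℝ) := by positivity
    linarith
  refine ⟨b, C + 1, δ0, hb0, by positivity, hδ0, fun δ hδ hδ' => ?_, ?_⟩
  · obtain ⟨g1, g2, g3⟩ := h δ hδ hδ'
    have hd34 : 0 < δ ^ (3/4 : ℝ) := by positivity
    have hreal : ∀ x : ℝ, (R.law δ : Measure X).real {p | p.2 ≤ x} =
        R.prob δ (fun F => R.time δ F ≤ x) := by
      intro x
      have hm : MeasurableSet {p : X | p.2 ≤ x} :=
        measurableSet_le measurable_snd measurable_const
      rw [Measure.real, R.law_apply δ hm, ENNReal.toReal_ofReal]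
      · rfl
      · exact H974.Pr_nonneg two_ok _ _
    refine ⟨fun F hF => ?_, fun x hx => ?_, fun x hx hx1 => ?_, fun s hs hsd => ?_⟩
    · exact (mul_le_mul_of_nonneg_right hbc hd34.le).trans (g1 F hF)
    · exact htailup hx hbc (g2 x hx)
    · have hx0 : 0 < x := lt_of_lt_of_le (by positivity) hx
      exact (htaillow hx0).trans (g3 x (le_trans (by nlinarith) hx) hx1)
    · have hs0 : 0 < s := by linarith
      have hx1 : s ^ (-(3/7) : ℝ) ≤ 1 := Real.rpow_le_one_of_one_le_of_nonpos hs (by norm_num)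
      have hxC : C * δ ^ (3/4 : ℝ) ≤ s ^ (-(3/7) : ℝ) := by
        have h1 : s ≤ (1 / C) ^ (7/3 : ℝ) * δ ^ (-(7/4) : ℝ) :=
          hsd.trans (mul_le_mul_of_nonneg_right hbC (by positivity))
        have h2 : ((1 / C) ^ (7/3 : ℝ) * δ ^ (-(7/4) : ℝ)) ^ (-(3/7) : ℝ) ≤ s ^ (-(3/7) : ℝ) :=
          Real.rpow_le_rpow_of_nonpos hs0 h1 (by norm_num)
        refine le_trans (le_of_eq ?_) h2
        rw [Real.mul_rpow (by positivity) (by positivity), ← Real.rpow_mul (by positivity),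
          ← Real.rpow_mul hδ.le, show (7/3 : ℝ) * -(3/7) = -1 by norm_num,
          show (-(7/4) : ℝ) * -(3/7) = 3/4 by norm_num, Real.rpow_neg_one, one_div, inv_inv]
      have hnn : ∀ᵐ p ∂(R.law δ : Measure X), 0 ≤ p.2 := by
        have hm : MeasurableSet {p : X | p.2 < 0} :=
          measurableSet_lt measurable_snd measurable_const
        have h4 : (R.law δ : Measure X) {p : X | p.2 < 0} = 0 := by
          rw [R.law_apply δ hm]
          have h5 : R.prob δ (fun F => (R.curve δ F, R.time δ F) ∈ {p : X | p.2 < 0}) ≤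
              R.prob δ (fun F => R.time δ F ≤ c * δ ^ (3/4 : ℝ) / 2) := by
            refine H974.Pr_mono two_ok fun F hF hp => ?_
            have h6 : R.time δ F < 0 := hp
            have : 0 < c * δ ^ (3/4 : ℝ) := by positivity
            linarith
          have h7 : R.prob δ (fun F => R.time δ F ≤ c * δ ^ (3/4 : ℝ) / 2) =
              1 - R.prob δ (fun F => ¬ R.time δ F ≤ c * δ ^ (3/4 : ℝ) / 2) := by
            unfold Rect.prob
            have := H974.Pr_not (p := fun _ : H974.Edg => (1/2:ℝ)) (R.dm δ).edges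
              (fun F => R.time δ F ≤ c * δ ^ (3/4 : ℝ) / 2)
            have e : P (R.dm δ).edges (fun F => ¬ R.time δ F ≤ c * δ ^ (3/4 : ℝ) / 2) =
              1 - P (R.dm δ).edges (fun F => R.time δ F ≤ c * δ ^ (3/4 : ℝ) / 2) := this
            rw [e]; ring
          have h8 : R.prob δ (fun F => ¬ R.time δ F ≤ c * δ ^ (3/4 : ℝ) / 2) = 1 := by
            refine H974.Pr_true _ fun F hF => ?_
            have h9 := g1 F hF
            have : 0 < c * δ ^ (3/4 : ℝ) := by positivity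
            push Not
            linarith
          rw [h8, sub_self] at h7
          rw [h7] at h5
          exact ENNReal.ofReal_of_nonpos h5
        rw [ae_iff]
        convert h4 using 2
        ext p
        simp
      obtain ⟨k1, k2⟩ := lap_two hnn (c := c) (C := C) hC hs
        (by rw [hreal]; exact g3 _ hxC hx1) (by rw [hreal]; exact g2 _ (by positivity))
      exact ⟨k1, hlapup hs hbc k2⟩
  · intro δ hδ hlim μ hμ
    obtain ⟨hnn, ht⟩ := lim_tail hc hC hδ0 h hδ hlim hμ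
    refine ⟨fun x hx => ?_, fun x hx hx1 => ?_, fun s hs => ?_⟩
    · have h1 := (ht x hx).2
      have h2 := htailup hx hb4 h1
      rw [Measure.real] at h2
      rw [← ENNReal.ofReal_toReal (measure_ne_top (μ : Measure X) {p | p.2 ≤ x})]
      exact ENNReal.ofReal_le_ofReal h2
    · have h1 := (htaillow hx).trans ((ht x hx).1 hx1)
      rw [Measure.real] at h1
      rw [← ENNReal.ofReal_toReal (measure_ne_top (μ : Measure X) {p | p.2 ≤ x})]
      exact ENNReal.ofReal_le_ofReal h1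
    · have hs0 : 0 < s := by linarith
      have hx1 : s ^ (-(3/7) : ℝ) ≤ 1 := Real.rpow_le_one_of_one_le_of_nonpos hs (by norm_num)
      have hx0 : 0 < s ^ (-(3/7) : ℝ) := by positivity
      have hup : (μ : Measure X).real {p | p.2 ≤ s ^ (-(3/7) : ℝ)} ≤
          C * Real.exp (-(c / 4 * (s ^ (-(3/7) : ℝ)) ^ (-(4/3) : ℝ))) := (ht _ hx0).2
      obtain ⟨k1, k2⟩ := lap_two hnn (c := c / 4) (C := C) hC hs ((ht _ hx0).1 hx1) hup
      exact ⟨k1, hlapup hs hb4 k2⟩

end Pool.Agent.Results.MP_6c8efb_pr.DurationLowerTail
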