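import Pool.Agent.X136.QE.Model
import Pool.Agent.X136.QE.Lim

set_option autoImplicit false

/-!
# The exploration path in a random environment

Bond percolation on `ℤ × ℕ` with the boundary values of the problem, in an environment: the edges
`e` carry independent random numbers `q e ∈ [0, 1]` of mean `1 / 2` with `E (2 q e - 1)² ≤ ρ < 1`,
and given `q` the edge `e` is open with probability `q e`. For almost every `q` the rescaled
exploration path has, along every sequence of scales, the same limits in law as at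
`p_c = 1 / 2`.

Definitions: `Pool.Agent.X136.QE.Model`.
-/

namespace Pool.Agent.Results.MP_6c8efb_pr.RandomEnvironment

open H974 H984H MeasureTheory ProbabilityTheory Filter Topology
open Pool.Agent.X136.QE.Model

theorem rho_nn (ν : Measure unitInterval) : 0 ≤ rho ν := integral_nonneg fun _ => sq_nonneg _

/-- **The exploration path in a random environment.** -/
theorem result :
    (∃ C c : ℝ, 0 < C ∧ 0 < c ∧ ∀ (ν : Edg → Measure unitInterval)
      [∀ e, IsProbabilityMeasure (ν e)] (ρ : ℝ), (∀ e, ∫ p, (p : ℝ) ∂ν e = 1 / 2) → ρ < 1 →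
      (∀ e, rho (ν e) ≤ ρ) → ∀ n : ℕ, 1 ≤ n → ∀ (K : NNReal) (F : C(unitInterval, ℂ) → ℝ),
      LipschitzWith K F → (∀ f, |F f| ≤ 1) →
      ∫ q, ((∫ f, F f ∂(lawQ q n : Measure C(unitInterval, ℂ))) -
        ∫ f, F f ∂(lawH n : Measure C(unitInterval, ℂ))) ^ 2 ∂env ν ≤
        C * (1 + K) * (1 + ρ / (1 - ρ) ^ 2) * (n : ℝ) ^ (-c)) ∧
    ∀ (ν : Edg → Measure unitInterval) [∀ e, IsProbabilityMeasure (ν e)] (ρ : ℝ),
      (∀ e, ∫ p, (p : ℝ) ∂ν e = 1 / 2) → ρ < 1 → (∀ e, rho (ν e) ≤ ρ) →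
      ∀ᵐ q ∂env ν,
        (∀ φ : ℕ → ℕ, Tendsto φ atTop atTop → ∃ ψ : ℕ → ℕ, StrictMono ψ ∧
          ∃ μ : ProbabilityMeasure C(unitInterval, ℂ),
            Tendsto (fun i => lawQ q (φ (ψ i))) atTop (𝓝 μ) ∧
            Tendsto (fun i => lawH (φ (ψ i))) atTop (𝓝 μ)) ∧
        (∀ φ : ℕ → ℕ, Tendsto φ atTop atTop → ∀ μ : ProbabilityMeasure C(unitInterval, ℂ),
          Tendsto (fun i => lawQ q (φ i)) atTop (𝓝 μ) ↔
            Tendsto (fun i => lawH (φ i)) atTop (𝓝 μ)) ∧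
        ∀ (X : Type) [MetricSpace X] [MeasurableSpace X] [BorelSpace X]
          (Ψ : C(unitInterval, ℂ) → X) (hΨ : Continuous Ψ) (φ : ℕ → ℕ), Tendsto φ atTop atTop →
          ∀ μ : ProbabilityMeasure X,
            Tendsto (fun i => (lawQ q (φ i)).map hΨ.measurable.aemeasurable) atTop (𝓝 μ) ↔
              Tendsto (fun i => (lawH (φ i)).map hΨ.measurable.aemeasurable) atTop (𝓝 μ) := by
  refine ⟨?_, ?_⟩
  · obtain ⟨C, c, hC, hc, h⟩ := Pool.Agent.X136.QE.main_var
    refine ⟨C, c, hC, hc, ?_⟩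
    intro ν _ ρ hm hρ1 hρ n hn K F hF hF1
    have hρ0 : 0 ≤ ρ := (rho_nn (ν (0, 0, false))).trans (hρ _)
    have h1 := h ν hm ρ hρ0 hρ1 hρ n hn (fun p => F (Pool.Agent.X136.QE.cv n p)) K K.2
      (fun p => hF1 _) (Pool.Agent.X136.QE.lipP_curve hF n)
    refine le_trans (le_of_eq ?_) h1
    refine integral_congr_ae (Eventually.of_forall fun q => ?_)
    have e1 := Pool.Agent.X136.QE.lawQ_int q n hF.continuous
    have e2 := Pool.Agent.X136.QE.lawH_int' n hF.continuous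
    show ((∫ f, F f ∂(lawQ q n : Measure C(unitInterval, ℂ))) -
        ∫ f, F f ∂(lawH n : Measure C(unitInterval, ℂ))) ^ 2 = _
    rw [e2]
    congr 2
  · intro ν _ ρ hm hρ1 hρ
    have hρ0 : 0 ≤ ρ := (rho_nn (ν (0, 0, false))).trans (hρ _)
    have htight := Displacement.result.2.2.2.2.1
    have hq := Pool.Agent.X136.QE.quenched ν hm hρ0 hρ1 hρ
    change ∀ᵐ q ∂env ν, _ at hq
    filter_upwards [hq] with q hq
    change ∀ φ : ℕ → ℕ, Tendsto φ atTop atTop → ∀ μ : ProbabilityMeasure C(unitInterval, ℂ),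
          Tendsto (fun i => lawQ q (φ i)) atTop (𝓝 μ) ↔
            Tendsto (fun i => lawH (φ i)) atTop (𝓝 μ) at hq
    have h1 : ∀ φ : ℕ → ℕ, Tendsto φ atTop atTop → ∃ ψ : ℕ → ℕ, StrictMono ψ ∧
          ∃ μ : ProbabilityMeasure C(unitInterval, ℂ),
            Tendsto (fun i => lawQ q (φ (ψ i))) atTop (𝓝 μ) ∧
            Tendsto (fun i => lawH (φ (ψ i))) atTop (𝓝 μ) := by
      intro φ hφ
      obtain ⟨ψ, hψ, μ, hμ⟩ := htight φ hφ
      exact ⟨ψ, hψ, μ, (hq (fun i => φ (ψ i)) (hφ.comp hψ.tendsto_atTop) μ).2 hμ, hμ⟩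
    refine ⟨h1, hq, ?_⟩
    intro X _ _ _ Ψ hΨ φ hφ μ
    constructor
    · intro h
      refine tendsto_of_subseq_tendsto fun ns hns => ?_
      obtain ⟨ψ, hψ, μ', ha, hb⟩ := h1 (fun i => φ (ns i)) (hφ.comp hns)
      refine ⟨ψ, ?_⟩
      have ha' := (ProbabilityMeasure.continuous_map hΨ).tendsto μ' |>.comp ha
      have hb' := (ProbabilityMeasure.continuous_map hΨ).tendsto μ' |>.comp hb
      have e := tendsto_nhds_unique ha' (h.comp (hns.comp hψ.tendsto_atTop))
      rw [← e]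
      exact hb'
    · intro h
      refine tendsto_of_subseq_tendsto fun ns hns => ?_
      obtain ⟨ψ, hψ, μ', ha, hb⟩ := h1 (fun i => φ (ns i)) (hφ.comp hns)
      refine ⟨ψ, ?_⟩
      have ha' := (ProbabilityMeasure.continuous_map hΨ).tendsto μ' |>.comp ha
      have hb' := (ProbabilityMeasure.continuous_map hΨ).tendsto μ' |>.comp hb
      have e := tendsto_nhds_unique hb' (h.comp (hns.comp hψ.tendsto_atTop))
      rw [← e]
      exact ha'

end Pool.Agent.Results.MP_6c8efb_pr.RandomEnvironment
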